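import Pool.Agent.W230.LP.Geo

set_option autoImplicit false

namespace Pool.Agent.W230.LP

open MeasureTheory ProbabilityTheory Pool.Agent.W533.LP

section det

variable {n : ℕ}

/-- Partial sums of the slopes. -/
noncomputable def S (W : V n → ℕ) (v : V n) (m : ℕ) : ℝ := ∑ l ∈ Finset.range m, sl W v l

lemma S_def (W : V n → ℕ) (v : V n) (m : ℕ) :
    S W v m = ∑ l ∈ Finset.range m, sl W v l := rfl

lemma sl_update (W : V n → ℕ) (v : V n) (k l : ℕ) :
    sl (Function.update W v k) v l = sl W v l := by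
  unfold sl
  rw [Function.update_idem, Function.update_idem]

lemma S_update (W : V n → ℕ) (v : V n) (k m : ℕ) :
    S (Function.update W v k) v m = S W v m := by
  unfold S
  simp only [sl_update]

lemma Tc_update (W : V n → ℕ) (v : V n) (m : ℕ) :
    (Tc (Function.update W v m) : ℝ) = Tc (Function.update W v 0) + S W v m := by
  unfold S sl
  rw [Finset.sum_range_sub (fun l => (Tc (Function.update W v l) : ℝ))]
  ring

lemma sl_nonneg (hSl : DSl) (W : V n → ℕ) (v : V n) (l : ℕ) : 0 ≤ sl W v l := by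
  rcases (hSl n W v l).1 with h | h <;> rw [h] <;> norm_num

lemma sl_le (hSl : DSl) (W : V n → ℕ) (v : V n) (l : ℕ) : sl W v l ≤ 1 := by
  rcases (hSl n W v l).1 with h | h <;> rw [h] <;> norm_num

lemma S_nonneg (hSl : DSl) (W : V n → ℕ) (v : V n) (m : ℕ) : 0 ≤ S W v m :=
  Finset.sum_nonneg fun l _ => sl_nonneg hSl W v l

lemma S_le (hSl : DSl) (W : V n → ℕ) (v : V n) (m : ℕ) : S W v m ≤ m := by
  have := Finset.sum_le_sum (s := Finset.range m) fun l _ => sl_le hSl W v l
  unfold S
  simpa using this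

lemma Wt_update (s : ℕ) (y : V n → ℕ) (h : V n → Bool × ℕ) (v : V n) (k m : ℕ) :
    Function.update (Wt s (Function.update y v k) h) v m = Function.update (Wt s y h) v m := by
  funext w
  by_cases hw : w = v
  · subst hw; simp
  · rw [Function.update_of_ne hw, Function.update_of_ne hw]
    unfold Wt
    rw [Function.update_of_ne hw]

lemma Wt_update2 (s : ℕ) (y : V n → ℕ) (h : V n → Bool × ℕ) (v : V n) (c : Bool × ℕ) :
    Wt s y (Function.update h v c) =
      Function.update (Wt s y h) v (if c.1 then y v + s else c.2) := by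
  funext w
  by_cases hw : w = v
  · subst hw
    unfold Wt
    simp
  · rw [Function.update_of_ne hw]
    unfold Wt
    rw [Function.update_of_ne hw]

lemma sl_Wt_update (s : ℕ) (y : V n → ℕ) (h : V n → Bool × ℕ) (v : V n) (k l : ℕ) :
    sl (Wt s (Function.update y v k) h) v l = sl (Wt s y h) v l := by
  rw [← sl_update (Wt s (Function.update y v k) h) v 0 l, Wt_update, sl_update]

lemma pp_update (q ρ : ℝ) (s : ℕ) (y : V n → ℕ) (v : V n) (k l : ℕ) :
    pp q ρ s (Function.update y v k) v l = pp q ρ s y v l := by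
  unfold pp
  simp only [sl_Wt_update]

lemma ph_update (q ρ : ℝ) (s : ℕ) (y : V n → ℕ) (v : V n) (k : ℕ) :
    ph q ρ s (Function.update y v k) v = ∑ l ∈ Finset.range (k + s), pp q ρ s y v l := by
  unfold ph
  simp only [pp_update, Function.update_self]

lemma Tc_le (hC : DChain) (W : V n → ℕ) : Tc W ≤ ∑ v, W v := by
  classical
  have h := hC n W
  rw [h]
  refine Finset.sup_le fun A _ => ?_
  exact Finset.sum_le_sum_of_subset (Finset.subset_univ A)

end det

section prob

lemma hM_prob {q ρ : ℝ} {s : ℕ} (h : Par q ρ s) : IsProbabilityMeasure (hM q ρ s) := by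
  obtain ⟨h0, h1, h2, h3, -⟩ := h
  have hP := geoM_prob h0 h1
  have hc : IsProbabilityMeasure (ENNReal.ofReal ρ • Measure.dirac true +
      ENNReal.ofReal (1 - ρ) • Measure.dirac false : Measure Bool) := ⟨by
    simp only [Measure.add_apply, Measure.smul_apply, measure_univ, smul_eq_mul, mul_one]
    rw [← ENNReal.ofReal_add h2.le (by linarith)]
    simp⟩
  have hd : IsProbabilityMeasure (if s = 0 then geoM q else Measure.dirac 0 : Measure ℕ) := by
    split_ifs <;> infer_instance
  unfold hM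
  infer_instance

lemma int_kappa {q ρ : ℝ} {s : ℕ} (h : Par q ρ s) :
    ∫ c, (if c.1 = true then (1 : ℝ) else 0) ∂(hM q ρ s) = ρ := by
  obtain ⟨h0, h1, h2, h3, -⟩ := h
  have hP := geoM_prob h0 h1
  have hc : IsProbabilityMeasure (ENNReal.ofReal ρ • Measure.dirac true +
      ENNReal.ofReal (1 - ρ) • Measure.dirac false : Measure Bool) := ⟨by
    simp only [Measure.add_apply, Measure.smul_apply, measure_univ, smul_eq_mul, mul_one]
    rw [← ENNReal.ofReal_add h2.le (by linarith)]
    simp⟩
  have hd : IsProbabilityMeasure (if s = 0 then geoM q else Measure.dirac 0 : Measure ℕ) := by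
    split_ifs <;> infer_instance
  unfold hM
  have e := integral_prod_mul (μ := (ENNReal.ofReal ρ • Measure.dirac true +
      ENNReal.ofReal (1 - ρ) • Measure.dirac false : Measure Bool))
      (ν := (if s = 0 then geoM q else Measure.dirac 0 : Measure ℕ))
      (fun b : Bool => if b = true then (1 : ℝ) else 0) (fun _ : ℕ => (1 : ℝ))
  simp only [mul_one] at e
  rw [e, integral_const, probReal_univ, one_smul, mul_one, integral_add_measure,
    integral_smul_measure, integral_smul_measure, integral_dirac, integral_dirac,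
    ENNReal.toReal_ofReal h2.le]
  · simp
  · exact (integrable_dirac (by simp)).smul_measure (by simp)
  · exact (integrable_dirac (by simp)).smul_measure (by simp)

lemma int_snd {q ρ : ℝ} {s : ℕ} (h : Par q ρ s)
    (hint : ∀ r : ℕ, Integrable (fun k : ℕ => (k : ℝ) ^ r) (geoM q)) :
    Integrable (fun c : Bool × ℕ => (c.2 : ℝ)) (hM q ρ s) := by
  obtain ⟨-, -, h2, h3, -⟩ := h
  have hc : IsProbabilityMeasure (ENNReal.ofReal ρ • Measure.dirac true +
      ENNReal.ofReal (1 - ρ) • Measure.dirac false : Measure Bool) := ⟨by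
    simp only [Measure.add_apply, Measure.smul_apply, measure_univ, smul_eq_mul, mul_one]
    rw [← ENNReal.ofReal_add h2.le (by linarith)]
    simp⟩
  have h1 : Integrable (fun k : ℕ => (k : ℝ))
      (if s = 0 then geoM q else Measure.dirac 0 : Measure ℕ) := by
    split_ifs
    · have := hint 1
      simpa using this
    · exact integrable_dirac (by simp)
  unfold hM
  exact h1.comp_snd _

variable {q ρ : ℝ} {s n : ℕ}

lemma int_Tc (hpar : Par q ρ s) (hC : DChain)
    (hint : ∀ r : ℕ, Integrable (fun k : ℕ => (k : ℝ) ^ r) (geoM q)) (y : V n → ℕ) :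
    Integrable (fun h => (Tc (Wt s y h) : ℝ)) (muH q ρ s n) := by
  have hP := hM_prob hpar
  unfold muH
  refine Integrable.mono' (g := fun h => ∑ v, (((y v : ℝ) + s) + ((h v).2 : ℝ))) ?_
    (Measurable.of_discrete).aestronglyMeasurable (Filter.Eventually.of_forall fun h => ?_)
  · refine integrable_finsetSum _ fun v _ => (integrable_const _).add ?_
    exact integrable_comp_eval (μ := fun _ : V n => hM q ρ s) (i := v) (int_snd hpar hint)
  · rw [Real.norm_eq_abs, abs_of_nonneg (Nat.cast_nonneg _)]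
    refine (Nat.cast_le.2 (Tc_le hC (Wt s y h))).trans ?_
    push_cast
    refine Finset.sum_le_sum fun v _ => ?_
    have h1 : Wt s y h v ≤ y v + s + (h v).2 := by
      unfold Wt
      split_ifs <;> omega
    exact_mod_cast h1

lemma int_bdd {α : Type} [MeasurableSpace α] [DiscreteMeasurableSpace α] {μ : Measure α}
    [IsFiniteMeasure μ] {f : α → ℝ} {C : ℝ} (h0 : ∀ x, 0 ≤ f x) (h1 : ∀ x, f x ≤ C) :
    Integrable f μ :=
  Integrable.of_bound (C := C) (Measurable.of_discrete).aestronglyMeasurable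
    (Filter.Eventually.of_forall fun x => by
      rw [Real.norm_eq_abs, abs_of_nonneg (h0 x)]; exact h1 x)

lemma PP_eq (hpar : Par q ρ s) (hSl : DSl) (y : V n → ℕ) (v : V n) (m : ℕ) :
    ∑ l ∈ Finset.range m, pp q ρ s y v l = ∫ h, S (Wt s y h) v m ∂(muH q ρ s n) := by
  have hP := hM_prob hpar
  have hP2 : IsProbabilityMeasure (muH q ρ s n) := by unfold muH; infer_instance
  unfold S pp
  rw [integral_finsetSum]
  intro l _
  exact int_bdd (C := 1) (fun h => sl_nonneg hSl _ _ _) (fun h => sl_le hSl _ _ _)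

lemma pp_nonneg (hSl : DSl) (y : V n → ℕ) (v : V n) (l : ℕ) : 0 ≤ pp q ρ s y v l :=
  integral_nonneg fun h => sl_nonneg hSl _ _ _

lemma pp_le (hpar : Par q ρ s) (hSl : DSl) (y : V n → ℕ) (v : V n) (l : ℕ) :
    pp q ρ s y v l ≤ 1 := by
  have hP := hM_prob hpar
  have hP2 : IsProbabilityMeasure (muH q ρ s n) := by unfold muH; infer_instance
  have h1 : pp q ρ s y v l ≤ ∫ _h, (1 : ℝ) ∂(muH q ρ s n) :=
    integral_mono (int_bdd (C := 1) (fun h => sl_nonneg hSl _ _ _) (fun h => sl_le hSl _ _ _))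
      (integrable_const _) fun h => sl_le hSl _ _ _
  simpa using h1

lemma ph_nonneg (hSl : DSl) (y : V n → ℕ) (v : V n) : 0 ≤ ph q ρ s y v :=
  Finset.sum_nonneg fun l _ => pp_nonneg hSl y v l

lemma ph_le (hpar : Par q ρ s) (hSl : DSl) (y : V n → ℕ) (v : V n) :
    ph q ρ s y v ≤ y v + s := by
  have := Finset.sum_le_sum (s := Finset.range (y v + s)) fun l _ => pp_le hpar hSl y v l
  unfold ph
  simpa using this

attribute [local irreducible] Tc Wt S in
lemma gg_diff (hpar : Par q ρ s) (hSl : DSl) (hC : DChain)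
    (hint : ∀ r : ℕ, Integrable (fun k : ℕ => (k : ℝ) ^ r) (geoM q)) (y : V n → ℕ) (v : V n)
    (k : ℕ) : gg q ρ s (Function.update y v k) - gg q ρ s y =
      ρ * (∑ l ∈ Finset.range (k + s), pp q ρ s y v l -
        ∑ l ∈ Finset.range (y v + s), pp q ρ s y v l) := by
  have hP := hM_prob hpar
  have i1 := int_Tc hpar hC hint (Function.update y v k)
  have i2 := int_Tc hpar hC hint y
  rw [PP_eq hpar hSl, PP_eq hpar hSl]
  have hκ := int_kappa hpar
  unfold gg
  unfold muH at i1 i2 ⊢
  obtain ⟨η, hη⟩ : ∃ η, η = hM q ρ s := ⟨_, rfl⟩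
  rw [← hη] at hP i1 i2 hκ ⊢
  clear hη
  obtain ⟨j1, e1⟩ := integral_resamp η v i1
  obtain ⟨j2, e2⟩ := integral_resamp η v i2
  rw [e1, e2, ← integral_sub j1 j2]
  clear e1 e2 j1 j2
  have e3 : ∀ z : (V n → Bool × ℕ) × (Bool × ℕ),
      (Tc (Wt s (Function.update y v k) (Function.update z.1 v z.2)) : ℝ) -
        (Tc (Wt s y (Function.update z.1 v z.2)) : ℝ) =
      (S (Wt s y z.1) v (k + s) - S (Wt s y z.1) v (y v + s)) *
        (if z.2.1 = true then (1 : ℝ) else 0) := by
    rintro ⟨h, c⟩
    rw [Wt_update2, Wt_update2, Wt_update, Function.update_self]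
    dsimp only
    by_cases hc : c.1 = true
    · rw [if_pos hc, if_pos hc, if_pos hc, Tc_update, Tc_update (Wt s y h) v (y v + s)]
      ring
    · rw [if_neg hc, if_neg hc, if_neg hc]
      ring
  refine (integral_congr_ae (Filter.Eventually.of_forall e3)).trans ?_
  refine (integral_prod_mul (μ := Measure.pi fun _ : V n => η) (ν := η)
    (fun h : V n → Bool × ℕ => S (Wt s y h) v (k + s) - S (Wt s y h) v (y v + s))
    (fun c : Bool × ℕ => if c.1 = true then (1 : ℝ) else 0)).trans ?_
  rw [hκ, integral_sub]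
  · ring
  · exact int_bdd (C := ((k + s : ℕ) : ℝ)) (fun h => S_nonneg hSl _ _ _)
      (fun h => S_le hSl _ _ _)
  · exact int_bdd (C := ((y v + s : ℕ) : ℝ)) (fun h => S_nonneg hSl _ _ _)
      (fun h => S_le hSl _ _ _)

lemma int_two {μ : Measure ℕ} (hint : ∀ r : ℕ, Integrable (fun k : ℕ => (k : ℝ) ^ r) μ)
    (r r' : ℕ) (a : ℝ) : Integrable (fun k : ℕ => (k : ℝ) ^ r + a * (k : ℝ) ^ r') μ :=
  (hint r).add ((hint r').const_mul a)

lemma int_ph_fib (hpar : Par q ρ s) (hSl : DSl)
    (hint : ∀ r : ℕ, Integrable (fun k : ℕ => (k : ℝ) ^ r) (geoM q)) (y : V n → ℕ) (v : V n) :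
    Integrable (fun k => ph q ρ s (Function.update y v k) v) (geoM q) := by
  refine Integrable.mono' (int_two hint 1 0 (s : ℝ))
    (Measurable.of_discrete).aestronglyMeasurable (Filter.Eventually.of_forall fun k => ?_)
  rw [Real.norm_eq_abs, abs_of_nonneg (ph_nonneg hSl _ _)]
  have := ph_le hpar hSl (Function.update y v k) v
  rw [Function.update_self] at this
  simpa using this

lemma Dv_gg (hpar : Par q ρ s) (hSl : DSl) (hC : DChain)
    (hint : ∀ r : ℕ, Integrable (fun k : ℕ => (k : ℝ) ^ r) (geoM q)) (v : V n) (y : V n → ℕ) :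
    Dv q (gg q ρ s) v y = ρ * Dv q (fun y => ph q ρ s y v) v y := by
  have hP := geoM_prob hpar.1 hpar.2.1
  unfold Dv
  have h1 : ∀ k, gg q ρ s (Function.update y v k) =
      (gg q ρ s y - ρ * ph q ρ s y v) + ρ * ph q ρ s (Function.update y v k) v := by
    intro k
    have := gg_diff hpar hSl hC hint y v k
    rw [← ph_update] at this
    have h2 : ph q ρ s y v = ∑ l ∈ Finset.range (y v + s), pp q ρ s y v l := rfl
    rw [← h2] at this
    linarith
  simp_rw [h1]
  rw [integral_add (integrable_const _) ((int_ph_fib hpar hSl hint y v).const_mul ρ),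
    integral_const, probReal_univ, one_smul, integral_const_mul]
  ring

/-- Moments of the geometric law. -/
lemma moments (hpar : Par q ρ s) (v : V n)
    (hsum : ∀ r : ℕ, Integrable (fun y : V n → ℕ => (∑ v, (y v : ℝ)) ^ r) (muY q n)) (r : ℕ) :
    Integrable (fun y : V n → ℕ => (y v : ℝ) ^ r) (muY q n) ∧
    Integrable (fun k : ℕ => (k : ℝ) ^ r) (geoM q) := by
  have hP := geoM_prob hpar.1 hpar.2.1
  have h1 : Integrable (fun y : V n → ℕ => (y v : ℝ) ^ r) (muY q n) := by
    refine Integrable.mono' (hsum r) (Measurable.of_discrete).aestronglyMeasurable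
      (Filter.Eventually.of_forall fun y => ?_)
    rw [Real.norm_eq_abs, abs_of_nonneg (by positivity)]
    refine pow_le_pow_left₀ (Nat.cast_nonneg _) ?_ r
    exact Finset.single_le_sum (f := fun v => (y v : ℝ)) (fun _ _ => Nat.cast_nonneg _)
      (Finset.mem_univ v)
  refine ⟨h1, ?_⟩
  have h2 := measurePreserving_eval (fun _ : V n => geoM q) v
  exact (h2.integrable_comp (Measurable.of_discrete).aestronglyMeasurable).1 h1

lemma Av_bd (hpar : Par q ρ s) (hSl : DSl)
    (hint : ∀ r : ℕ, Integrable (fun k : ℕ => (k : ℝ) ^ r) (geoM q)) (v : V n) (y : V n → ℕ) :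
    0 ≤ ∫ k, ph q ρ s (Function.update y v k) v ∂(geoM q) ∧
    ∫ k, ph q ρ s (Function.update y v k) v ∂(geoM q) ≤ ∫ k : ℕ, ((k : ℝ) + s) ∂(geoM q) := by
  have hP := geoM_prob hpar.1 hpar.2.1
  refine ⟨integral_nonneg fun k => ph_nonneg hSl _ _, ?_⟩
  refine integral_mono (int_ph_fib hpar hSl hint y v) ?_ fun k => ?_
  · have := (hint 1).add (integrable_const (μ := geoM q) (s : ℝ))
    simpa using this
  · have := ph_le hpar hSl (Function.update y v k) v
    rw [Function.update_self] at this
    exact this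

lemma ph_L2 (hpar : Par q ρ s) (hSl : DSl) (v : V n)
    (hsum : ∀ r : ℕ, Integrable (fun y : V n → ℕ => (∑ v, (y v : ℝ)) ^ r) (muY q n)) :
    MemLp (fun y : V n → ℕ => ph q ρ s y v) 2 (muY q n) := by
  have hP := geoM_prob hpar.1 hpar.2.1
  rw [memLp_two_iff_integrable_sq (Measurable.of_discrete).aestronglyMeasurable]
  have m2 := (moments hpar v hsum 2).1
  have m1 := (moments hpar v hsum 1).1
  have m0 := (moments hpar v hsum 0).1
  refine Integrable.mono' ((m2.add (m1.const_mul (2 * (s : ℝ)))).add (m0.const_mul ((s : ℝ) ^ 2)))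
    (Measurable.of_discrete).aestronglyMeasurable (Filter.Eventually.of_forall fun y => ?_)
  rw [Real.norm_eq_abs, abs_of_nonneg (by positivity)]
  have h1 := ph_le hpar hSl y v
  have h2 := ph_nonneg (q := q) (ρ := ρ) (s := s) hSl y v
  have h3 := pow_le_pow_left₀ h2 h1 2
  simp only [Pi.add_apply]
  nlinarith [h3]

end prob

attribute [local irreducible] Tc Wt S in
theorem gVar (hG : GLaw) (hSl : DSl) (hC : DChain) : GVar := by
  intro q ρ s hpar n v
  obtain ⟨hμ, hη, hmap, hTc, hsum, hgg, hggm⟩ := hG q ρ s hpar n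
  have hP := geoM_prob hpar.1 hpar.2.1
  have hint : ∀ r : ℕ, Integrable (fun k : ℕ => (k : ℝ) ^ r) (geoM q) :=
    fun r => (moments hpar v hsum r).2
  have hf := ph_L2 hpar hSl v hsum
  have hAv : MemLp (fun y : V n → ℕ => ∫ k, ph q ρ s (Function.update y v k) v ∂(geoM q)) 2
      (muY q n) := by
    refine MemLp.of_bound (Measurable.of_discrete).aestronglyMeasurable
      (∫ k : ℕ, ((k : ℝ) + s) ∂(geoM q)) (Filter.Eventually.of_forall fun y => ?_)
    have := Av_bd hpar hSl hint v y
    rw [Real.norm_eq_abs, abs_of_nonneg this.1]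
    exact this.2
  have hD : MemLp (fun y : V n → ℕ => Dv q (fun y => ph q ρ s y v) v y) 2 (muY q n) :=
    hf.sub hAv
  have hDg : (fun y : V n → ℕ => Dv q (gg q ρ s) v y) =
      fun y => ρ * Dv q (fun y => ph q ρ s y v) v y := funext fun y => Dv_gg hpar hSl hC hint v y
  refine ⟨by rw [hDg]; exact hD.const_mul ρ, ?_⟩
  have h1 : ∫ y, (Dv q (gg q ρ s) v y) ^ 2 ∂(muY q n) ≤
      ∫ y, (Dv q (fun y => ph q ρ s y v) v y) ^ 2 ∂(muY q n) := by
    have e : ∀ y : V n → ℕ, (Dv q (gg q ρ s) v y) ^ 2 =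
        ρ ^ 2 * (Dv q (fun y => ph q ρ s y v) v y) ^ 2 := fun y => by
      rw [Dv_gg hpar hSl hC hint v y]; ring
    rw [integral_congr_ae (Filter.Eventually.of_forall e), integral_const_mul]
    have h2 : 0 ≤ ∫ y, (Dv q (fun y => ph q ρ s y v) v y) ^ 2 ∂(muY q n) :=
      integral_nonneg fun y => sq_nonneg _
    have h3 : ρ ^ 2 ≤ 1 := by nlinarith [hpar.2.2.1, hpar.2.2.2.1]
    nlinarith
  refine h1.trans ?_
  have i1 : Integrable (fun y : V n → ℕ => (Dv q (fun y => ph q ρ s y v) v y) ^ 2)
      (Measure.pi fun _ : V n => geoM q) := hD.integrable_sq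
  have i2 : Integrable (fun y : V n → ℕ => (ph q ρ s y v) ^ 2)
      (Measure.pi fun _ : V n => geoM q) := hf.integrable_sq
  obtain ⟨j1, e1⟩ := integral_resamp (geoM q) v i1
  obtain ⟨j2, e2⟩ := integral_resamp (geoM q) v i2
  unfold muY
  rw [e1, e2, integral_prod _ j1, integral_prod _ j2]
  refine integral_mono j1.integral_prod_left j2.integral_prod_left fun y => ?_
  have h4 := variance_le_expectation_sq (μ := geoM q)
    (X := fun k => ph q ρ s (Function.update y v k) v)
    (Measurable.of_discrete).aestronglyMeasurable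
  rw [variance_eq_integral (Measurable.of_discrete).aemeasurable] at h4
  refine le_trans (le_of_eq ?_) h4
  refine integral_congr_ae (Filter.Eventually.of_forall fun k => ?_)
  simp only [Dv, Function.update_idem]

attribute [local irreducible] Tc Wt S in
theorem gL1 (hG : GLaw) (hSl : DSl) (hC : DChain) : GL1 := by
  intro q ρ s hpar n v
  obtain ⟨hμ, hη, hmap, hTc, hsum, hgg, hggm⟩ := hG q ρ s hpar n
  obtain ⟨hq0, hq1, hρ0, hρ1, hs⟩ := hpar
  have hpar : Par q ρ s := ⟨hq0, hq1, hρ0, hρ1, hs⟩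
  have hs1 : s ≤ 1 := by rcases hs with h | h <;> omega
  have hP := geoM_prob hq0 hq1
  have hPh := hM_prob hpar
  have hint : ∀ r : ℕ, Integrable (fun k : ℕ => (k : ℝ) ^ r) (geoM q) :=
    fun r => (moments hpar v hsum r).2
  have hint1 : Integrable (fun k : ℕ => (k : ℝ)) (geoM q) := by simpa using hint 1
  have hf2 := ph_L2 hpar hSl v hsum
  have hf : Integrable (fun y : V n → ℕ => ph q ρ s y v) (muY q n) := hf2.integrable (by norm_num)
  have hf' : Integrable (fun y : V n → ℕ => ph q ρ s y v) (Measure.pi fun _ : V n => geoM q) := hf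
  obtain ⟨j1, e1⟩ := integral_resamp (geoM q) v hf'
  have e1' : ∫ y, ph q ρ s y v ∂(muY q n) =
      ∫ y, ∫ k, ph q ρ s (Function.update y v k) v ∂(geoM q) ∂(muY q n) := by
    unfold muY
    rw [e1, integral_prod _ j1]
  have iAv : Integrable (fun y : V n → ℕ =>
      ∫ k, ph q ρ s (Function.update y v k) v ∂(geoM q)) (muY q n) := j1.integral_prod_left
  -- the first step
  have hstep1 : ∫ y, |Dv q (gg q ρ s) v y| ∂(muY q n) ≤ 2 * ∫ y, ph q ρ s y v ∂(muY q n) := by
    have h1 : ∫ y, |Dv q (gg q ρ s) v y| ∂(muY q n) ≤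
        ∫ y, (ph q ρ s y v + ∫ k, ph q ρ s (Function.update y v k) v ∂(geoM q)) ∂(muY q n) := by
      refine integral_mono_of_nonneg (Filter.Eventually.of_forall fun y => abs_nonneg _)
        (hf.add iAv) (Filter.Eventually.of_forall fun y => ?_)
      change |Dv q (gg q ρ s) v y| ≤
        ph q ρ s y v + ∫ k, ph q ρ s (Function.update y v k) v ∂(geoM q)
      rw [Dv_gg hpar hSl hC hint v y]
      unfold Dv
      have a1 := ph_nonneg (q := q) (ρ := ρ) (s := s) hSl y v
      have a2 := (Av_bd hpar hSl hint v y).1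
      rw [abs_mul, abs_of_pos hρ0]
      have a3 : |ph q ρ s y v - ∫ k, ph q ρ s (Function.update y v k) v ∂(geoM q)| ≤
          ph q ρ s y v + ∫ k, ph q ρ s (Function.update y v k) v ∂(geoM q) := by
        rw [abs_le]; constructor <;> linarith
      have a4 := abs_nonneg (ph q ρ s y v - ∫ k, ph q ρ s (Function.update y v k) v ∂(geoM q))
      nlinarith
    rw [integral_add hf iAv, ← e1'] at h1
    linarith
  -- the second step
  have iA : ∀ W : V n → ℕ, 0 ≤ ∫ k, S W v (k + s) ∂(geoM q) ∧
      ∫ k, S W v (k + s) ∂(geoM q) ≤ ∫ k : ℕ, ((k : ℝ) + s) ∂(geoM q) := by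
    intro W
    refine ⟨integral_nonneg fun k => S_nonneg hSl _ _ _, ?_⟩
    refine integral_mono_of_nonneg (Filter.Eventually.of_forall fun k => S_nonneg hSl _ _ _)
      (hint1.add (integrable_const _)) (Filter.Eventually.of_forall fun k => ?_)
    have := S_le hSl W v (k + s)
    push_cast at this
    exact this
  have hstep2 : ∫ y, ph q ρ s y v ∂(muY q n) = ∫ W, ∫ k, S W v (k + s) ∂(geoM q) ∂(muY q n) := by
    rw [e1']
    have h1 : ∀ y : V n → ℕ, ∫ k, ph q ρ s (Function.update y v k) v ∂(geoM q) =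
        ∫ h, ∫ k, S (Wt s y h) v (k + s) ∂(geoM q) ∂(muH q ρ s n) := by
      intro y
      simp_rw [ph_update, PP_eq hpar hSl]
      refine integral_integral_swap (f := fun k h => S (Wt s y h) v (k + s)) ?_
      refine Integrable.mono' (g := fun z : ℕ × (V n → Bool × ℕ) => (z.1 : ℝ) + s)
        ((hint1.add (integrable_const _)).comp_fst _)
        (Measurable.of_discrete).aestronglyMeasurable (Filter.Eventually.of_forall fun z => ?_)
      rw [Real.norm_eq_abs]
      change |S (Wt s y z.2) v (z.1 + s)| ≤ _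
      rw [abs_of_nonneg (S_nonneg hSl _ _ _)]
      have := S_le hSl (Wt s y z.2) v (z.1 + s)
      push_cast at this
      exact this
    simp_rw [h1]
    rw [integral_integral (f := fun y h => ∫ k, S (Wt s y h) v (k + s) ∂(geoM q))
      (int_bdd (fun z => (iA _).1) (fun z => (iA _).2))]
    have h2 := integral_map (μ := (muY q n).prod (muH q ρ s n))
      (φ := fun z : (V n → ℕ) × (V n → Bool × ℕ) => Wt s z.1 z.2)
      (f := fun W => ∫ k, S W v (k + s) ∂(geoM q)) (Measurable.of_discrete).aemeasurable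
      (Measurable.of_discrete).aestronglyMeasurable
    rw [hmap] at h2
    exact h2.symm
  -- the covariance
  set m : ℝ := q / (1 - q) with hm
  have hmean : ∫ k : ℕ, (k : ℝ) ∂(geoM q) = m := by
    have h1 := integral_shift hq0 hq1 hint1
    have h2 : ∫ k : ℕ, ((k + 1 : ℕ) : ℝ) ∂(geoM q) = ∫ k : ℕ, (k : ℝ) ∂(geoM q) + 1 := by
      push_cast
      rw [integral_add hint1 (integrable_const _), integral_const, probReal_univ, one_smul]
    rw [h2] at h1
    rw [hm, eq_div_iff (by linarith)]
    push_cast at h1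
    linarith
  have LT : MemLp (fun W : V n → ℕ => (Tc W : ℝ)) 2 (muY q n) := by
    rw [memLp_two_iff_integrable_sq (Measurable.of_discrete).aestronglyMeasurable]
    exact hTc 2
  have LV : MemLp (fun W : V n → ℕ => (W v : ℝ)) 2 (muY q n) := by
    rw [memLp_two_iff_integrable_sq (Measurable.of_discrete).aestronglyMeasurable]
    exact (moments hpar v hsum 2).1
  have hEv : ∫ W : V n → ℕ, (W v : ℝ) ∂(muY q n) = m := by
    rw [← hmean]
    exact integral_comp_eval (μ := fun _ : V n => geoM q) (i := v)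
      (f := fun k : ℕ => (k : ℝ)) (Measurable.of_discrete).aestronglyMeasurable
  have iTV : Integrable (fun W : V n → ℕ => (Tc W : ℝ) * (W v : ℝ)) (muY q n) :=
    LT.integrable_mul LV
  have iT : Integrable (fun W : V n → ℕ => (Tc W : ℝ)) (muY q n) := LT.integrable (by norm_num)
  have hcov : cov[fun W : V n → ℕ => (Tc W : ℝ), fun W => (W v : ℝ); muY q n] =
      ∫ W, ∫ k : ℕ, S W v k * ((k : ℝ) - m) ∂(geoM q) ∂(muY q n) := by
    rw [covariance_eq_sub LT LV, hEv]
    have h1 : ∫ W : V n → ℕ, (Tc W : ℝ) * ((W v : ℝ) - m) ∂(muY q n) =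
        ∫ W : V n → ℕ, (Tc W : ℝ) * (W v : ℝ) ∂(muY q n) -
          (∫ W : V n → ℕ, (Tc W : ℝ) ∂(muY q n)) * m := by
      rw [← integral_mul_const, ← integral_sub iTV (iT.mul_const m)]
      refine integral_congr_ae (Filter.Eventually.of_forall fun W => ?_)
      ring
    have h2 : Integrable (fun W : V n → ℕ => (Tc W : ℝ) * ((W v : ℝ) - m))
        (Measure.pi fun _ : V n => geoM q) := by
      have : Integrable (fun W : V n → ℕ => (Tc W : ℝ) * (W v : ℝ) - (Tc W : ℝ) * m)
        (muY q n) := iTV.sub (iT.mul_const m)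
      refine this.congr (Filter.Eventually.of_forall fun W => ?_)
      ring
    obtain ⟨j2, e2⟩ := integral_resamp (geoM q) v h2
    have e2' : ∫ W : V n → ℕ, (Tc W : ℝ) * ((W v : ℝ) - m) ∂(muY q n) =
        ∫ W, ∫ k : ℕ, S W v k * ((k : ℝ) - m) ∂(geoM q) ∂(muY q n) := by
      unfold muY
      rw [e2, integral_prod _ j2]
      refine integral_congr_ae (Filter.Eventually.of_forall fun W => ?_)
      have e5 : ∀ k : ℕ, (Tc (Function.update W v k) : ℝ) *
          (((Function.update W v k v : ℕ) : ℝ) - m) =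
          ((Tc (Function.update W v 0) : ℝ) + S W v k) * ((k : ℝ) - m) := fun k => by
        rw [Function.update_self, Tc_update W v k]
      refine (integral_congr_ae (Filter.Eventually.of_forall e5)).trans ?_
      have i3 : Integrable (fun k : ℕ => (k : ℝ) - m) (geoM q) := hint1.sub (integrable_const _)
      have i4 : Integrable (fun k : ℕ => S W v k * ((k : ℝ) - m)) (geoM q) := by
        refine Integrable.mono' (int_two hint 2 1 |m|)
          (Measurable.of_discrete).aestronglyMeasurable (Filter.Eventually.of_forall fun k => ?_)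
        rw [Real.norm_eq_abs, abs_mul, abs_of_nonneg (S_nonneg hSl _ _ _)]
        have a1 := S_le hSl W v k
        have a2 : |(k : ℝ) - m| ≤ (k : ℝ) + |m| := by
          have b0 : (0 : ℝ) ≤ k := Nat.cast_nonneg k
          have b1 := neg_abs_le m
          have b2 := le_abs_self m
          rw [abs_le]
          constructor <;> linarith
        have a3 : (0 : ℝ) ≤ k := Nat.cast_nonneg k
        calc S W v k * |(k : ℝ) - m| ≤ (k : ℝ) * ((k : ℝ) + |m|) :=
              mul_le_mul a1 a2 (abs_nonneg _) a3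
          _ = _ := by ring
      have h5 : ∫ k : ℕ, ((Tc (Function.update W v 0) : ℝ) + S W v k) * ((k : ℝ) - m) ∂(geoM q) =
          (Tc (Function.update W v 0) : ℝ) * ∫ k : ℕ, ((k : ℝ) - m) ∂(geoM q) +
            ∫ k : ℕ, S W v k * ((k : ℝ) - m) ∂(geoM q) := by
        rw [← integral_const_mul, ← integral_add (i3.const_mul _) i4]
        refine integral_congr_ae (Filter.Eventually.of_forall fun k => ?_)
        ring
      rw [h5, integral_sub hint1 (integrable_const _), integral_const, probReal_univ, one_smul,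
        hmean, sub_self, mul_zero, zero_add]
    rw [← e2', h1]
    rfl
  -- the comparison
  have hstep3 : ∫ W, ∫ k, S W v (k + s) ∂(geoM q) ∂(muY q n) ≤
      1 / q * ∫ W, ∫ k : ℕ, S W v k * ((k : ℝ) - m) ∂(geoM q) ∂(muY q n) := by
    rw [← integral_const_mul]
    have hp : ∀ W : V n → ℕ, ∫ k, S W v (k + s) ∂(geoM q) ≤
        1 / q * ∫ k : ℕ, S W v k * ((k : ℝ) - m) ∂(geoM q) := fun W => by
      simp only [S_def, hm]
      exact geo_ineq hq0 hq1 hint (fun l => sl W v l) (fun l => sl_nonneg hSl W v l)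
        (fun l => sl_le hSl W v l) hs1
    refine integral_mono_of_nonneg (Filter.Eventually.of_forall fun W => (iA W).1) ?_
      (Filter.Eventually.of_forall hp)
    refine Integrable.const_mul ?_ _
    have iB : ∀ W : V n → ℕ, |∫ k : ℕ, S W v k * ((k : ℝ) - m) ∂(geoM q)| ≤
        ∫ k : ℕ, ((k : ℝ) ^ 2 + |m| * (k : ℝ) ^ 1) ∂(geoM q) := by
      intro W
      refine (abs_integral_le_integral_abs).trans ?_
      refine integral_mono_of_nonneg (Filter.Eventually.of_forall fun k => abs_nonneg _)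
        (int_two hint 2 1 |m|) (Filter.Eventually.of_forall fun k => ?_)
      change |S W v k * ((k : ℝ) - m)| ≤ (k : ℝ) ^ 2 + |m| * (k : ℝ) ^ 1
      rw [abs_mul, abs_of_nonneg (S_nonneg hSl _ _ _)]
      have a1 := S_le hSl W v k
      have a2 : |(k : ℝ) - m| ≤ (k : ℝ) + |m| := by
        have b0 : (0 : ℝ) ≤ k := Nat.cast_nonneg k
        have b1 := neg_abs_le m
        have b2 := le_abs_self m
        rw [abs_le]
        constructor <;> linarith
      have a3 : (0 : ℝ) ≤ k := Nat.cast_nonneg k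
      calc S W v k * |(k : ℝ) - m| ≤ (k : ℝ) * ((k : ℝ) + |m|) :=
            mul_le_mul a1 a2 (abs_nonneg _) a3
        _ = _ := by ring
    exact Integrable.of_bound (Measurable.of_discrete).aestronglyMeasurable _
      (Filter.Eventually.of_forall iB)
  rw [hcov]
  rw [hstep2] at hstep1
  have h9 : 2 / q * ∫ W, ∫ k : ℕ, S W v k * ((k : ℝ) - m) ∂(geoM q) ∂(muY q n) =
      2 * (1 / q * ∫ W, ∫ k : ℕ, S W v k * ((k : ℝ) - m) ∂(geoM q) ∂(muY q n)) := by ring
  rw [h9]
  linarith

end Pool.Agent.W230.LP
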