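import Pool.Agent.W533.LP.Stm2

set_option autoImplicit false

namespace Pool.Agent.W230.LP

open MeasureTheory ProbabilityTheory Pool.Agent.W533.LP

/-! ### the geometric law -/

lemma geoM_apply (q : ℝ) (s : Set ℕ) :
    geoM q s = ∑' k : ℕ, ENNReal.ofReal ((1 - q) * q ^ k) * s.indicator 1 k := by
  unfold geoM
  rw [Measure.sum_apply _ (MeasurableSet.of_discrete)]
  refine tsum_congr fun k => ?_
  rw [Measure.smul_apply, Measure.dirac_apply, smul_eq_mul]

lemma geoM_prob {q : ℝ} (h0 : 0 < q) (h1 : q < 1) : IsProbabilityMeasure (geoM q) := by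
  refine ⟨?_⟩
  rw [geoM_apply]
  simp only [Set.indicator_univ, Pi.one_apply, mul_one]
  have h : ∀ k : ℕ, 0 ≤ (1 - q) * q ^ k := fun k =>
    mul_nonneg (by linarith) (pow_nonneg h0.le k)
  have hs : Summable fun k : ℕ => (1 - q) * q ^ k :=
    (summable_geometric_of_lt_one h0.le h1).mul_left _
  rw [← ENNReal.ofReal_tsum_of_nonneg h hs, tsum_mul_left, tsum_geometric_of_lt_one h0.le h1,
    mul_inv_cancel₀ (by linarith), ENNReal.ofReal_one]

lemma geoM_shift {q : ℝ} (h0 : 0 < q) (h1 : q < 1) :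
    geoM q = ENNReal.ofReal (1 - q) • Measure.dirac 0 +
      ENNReal.ofReal q • (geoM q).map Nat.succ := by
  refine Measure.ext fun s hs => ?_
  rw [Measure.add_apply, Measure.smul_apply, Measure.smul_apply, Measure.dirac_apply,
    Measure.map_apply (Measurable.of_discrete) hs, geoM_apply, geoM_apply, smul_eq_mul, smul_eq_mul,
    tsum_eq_zero_add' ENNReal.summable, ← ENNReal.tsum_mul_left]
  congr 1
  · simp
  · refine tsum_congr fun k => ?_
    have h2 : (Nat.succ ⁻¹' s).indicator (1 : ℕ → ENNReal) k =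
        s.indicator 1 (k + 1) := rfl
    rw [h2, ← mul_assoc, ← ENNReal.ofReal_mul h0.le]
    congr 2
    ring

lemma integral_shift {q : ℝ} (h0 : 0 < q) (h1 : q < 1) {f : ℕ → ℝ}
    (hf : Integrable f (geoM q)) :
    ∫ k, f k ∂(geoM q) = (1 - q) * f 0 + q * ∫ k, f (k + 1) ∂(geoM q) := by
  have hf2 : Integrable f (ENNReal.ofReal (1 - q) • Measure.dirac 0 +
      ENNReal.ofReal q • (geoM q).map Nat.succ) := by
    rw [← geoM_shift h0 h1]; exact hf
  conv_lhs => rw [geoM_shift h0 h1]
  rw [integral_add_measure hf2.left_of_add_measure hf2.right_of_add_measure,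
    integral_smul_measure, integral_smul_measure, integral_dirac,
    integral_map (Measurable.of_discrete).aemeasurable
      (Measurable.of_discrete).aestronglyMeasurable,
    ENNReal.toReal_ofReal (by linarith), ENNReal.toReal_ofReal h0.le, smul_eq_mul, smul_eq_mul]

/-! ### resampling one coordinate -/

lemma resamp {ι α : Type} [Fintype ι] [DecidableEq ι] [MeasurableSpace α] (ν : Measure α)
    [IsProbabilityMeasure ν] (v : ι) :
    MeasurePreserving (fun z : (ι → α) × α => Function.update z.1 v z.2)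
      ((Measure.pi fun _ => ν).prod ν) (Measure.pi fun _ => ν) := by
  have hm : Measurable (fun z : (ι → α) × α => Function.update z.1 v z.2) := by
    refine measurable_pi_lambda _ fun i => ?_
    by_cases h : i = v
    · subst h
      simpa using measurable_snd
    · simp only [Function.update_of_ne h]
      exact (measurable_pi_apply i).comp measurable_fst
  refine ⟨hm, ?_⟩
  symm
  apply Measure.pi_eq
  intro s hs
  rw [Measure.map_apply hm (MeasurableSet.univ_pi hs)]
  have h1 : (fun z : (ι → α) × α => Function.update z.1 v z.2) ⁻¹' Set.univ.pi s =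
      (Set.univ.pi (Function.update s v Set.univ)) ×ˢ s v := by
    ext z
    simp only [Set.mem_preimage, Set.mem_pi, Set.mem_univ, true_implies, Set.mem_prod]
    constructor
    · intro h
      refine ⟨fun i => ?_, ?_⟩
      · by_cases hi : i = v
        · subst hi; simp
        · have := h i
          rw [Function.update_of_ne hi] at this ⊢
          exact this
      · have := h v
        rwa [Function.update_self] at this
    · rintro ⟨h, h'⟩ i
      by_cases hi : i = v
      · subst hi; simpa using h'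
      · have := h i
        rw [Function.update_of_ne hi] at this ⊢
        exact this
  rw [h1, Measure.prod_prod, Measure.pi_pi, ← Finset.mul_prod_erase Finset.univ _ (Finset.mem_univ v),
    ← Finset.mul_prod_erase Finset.univ (fun i => ν (s i)) (Finset.mem_univ v),
    Function.update_self, measure_univ, one_mul, mul_comm]
  congr 1
  refine Finset.prod_congr rfl fun i hi => ?_
  rw [Function.update_of_ne (Finset.ne_of_mem_erase hi)]

lemma integral_resamp {ι α : Type} [Fintype ι] [DecidableEq ι] [MeasurableSpace α] (ν : Measure α)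
    [IsProbabilityMeasure ν] (v : ι) {F : (ι → α) → ℝ}
    (hF : Integrable F (Measure.pi fun _ => ν)) :
    Integrable (fun z : (ι → α) × α => F (Function.update z.1 v z.2))
      ((Measure.pi fun _ => ν).prod ν) ∧
    ∫ y, F y ∂(Measure.pi fun _ => ν) =
      ∫ z, F (Function.update z.1 v z.2) ∂((Measure.pi fun _ => ν).prod ν) := by
  have h := resamp ν v
  refine ⟨h.integrable_comp_of_integrable hF, ?_⟩
  have h2 := integral_map (f := F) h.aemeasurable (by rw [h.map_eq]; exact hF.aestronglyMeasurable)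
  rw [h.map_eq] at h2
  exact h2

/-! ### an inequality for the geometric law -/

lemma geo_ineq {q : ℝ} (h0 : 0 < q) (h1 : q < 1)
    (hint : ∀ r : ℕ, Integrable (fun k : ℕ => (k : ℝ) ^ r) (geoM q))
    (ψ : ℕ → ℝ) (hψ0 : ∀ l, 0 ≤ ψ l) (hψ1 : ∀ l, ψ l ≤ 1) {s : ℕ} (hs : s ≤ 1) :
    ∫ k, (∑ l ∈ Finset.range (k + s), ψ l) ∂(geoM q) ≤
      1 / q * ∫ k, (∑ l ∈ Finset.range k, ψ l) * ((k : ℝ) - q / (1 - q)) ∂(geoM q) := by
  have hP := geoM_prob h0 h1
  set S : ℕ → ℝ := fun k => ∑ l ∈ Finset.range k, ψ l with hS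
  have hS0 : ∀ k, 0 ≤ S k := fun k => Finset.sum_nonneg fun l _ => hψ0 l
  have hSk : ∀ k, S k ≤ k := by
    intro k
    have := Finset.sum_le_sum (s := Finset.range k) fun l _ => hψ1 l
    simpa using this
  have hSs : ∀ k, S (k + 1) = S k + ψ k := fun k => Finset.sum_range_succ _ _
  have hb : ∀ {f : ℕ → ℝ}, (∀ k : ℕ, |f k| ≤ (k : ℝ) ^ 2 + 2 * (k : ℝ) ^ 1 + (k : ℝ) ^ 0) →
      Integrable f (geoM q) := by
    intro f hf
    refine Integrable.mono' (((hint 2).add ((hint 1).const_mul 2)).add (hint 0))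
      (Measurable.of_discrete).aestronglyMeasurable (Filter.Eventually.of_forall fun k => ?_)
    rw [Real.norm_eq_abs]
    exact hf k
  have iS : Integrable S (geoM q) := hb fun k => by
    rw [abs_of_nonneg (hS0 k)]
    have := hSk k
    nlinarith [Nat.cast_nonneg (α := ℝ) k]
  have iψ : Integrable ψ (geoM q) := hb fun k => by
    rw [abs_of_nonneg (hψ0 k)]
    have := hψ1 k
    nlinarith [Nat.cast_nonneg (α := ℝ) k]
  have ikS : Integrable (fun k : ℕ => (k : ℝ) * S k) (geoM q) := hb fun k => by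
    rw [abs_of_nonneg (mul_nonneg (Nat.cast_nonneg k) (hS0 k))]
    have h2 := mul_le_mul_of_nonneg_left (hSk k) (Nat.cast_nonneg (α := ℝ) k)
    nlinarith [Nat.cast_nonneg (α := ℝ) k]
  have ikψ : Integrable (fun k : ℕ => ((k : ℝ) + 1) * ψ k) (geoM q) := hb fun k => by
    rw [abs_of_nonneg (mul_nonneg (by positivity) (hψ0 k))]
    have h2 := mul_le_mul_of_nonneg_left (hψ1 k) (by positivity : (0 : ℝ) ≤ (k : ℝ) + 1)
    nlinarith [Nat.cast_nonneg (α := ℝ) k]
  have e1 := integral_shift h0 h1 iS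
  have e2 := integral_shift h0 h1 ikS
  have e3 : ∫ k, S (k + 1) ∂(geoM q) = ∫ k, S k ∂(geoM q) + ∫ k, ψ k ∂(geoM q) := by
    rw [← integral_add iS iψ]
    exact integral_congr_ae (Filter.Eventually.of_forall fun k => hSs k)
  have e4 : ∫ k : ℕ, ((k + 1 : ℕ) : ℝ) * S (k + 1) ∂(geoM q) =
      ∫ k : ℕ, (k : ℝ) * S k ∂(geoM q) + ∫ k, S k ∂(geoM q) +
        ∫ k : ℕ, ((k : ℝ) + 1) * ψ k ∂(geoM q) := by
    have i2 : Integrable (fun k : ℕ => (k : ℝ) * S k + S k) (geoM q) := ikS.add iS
    rw [← integral_add ikS iS, ← integral_add i2 ikψ]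
    refine integral_congr_ae (Filter.Eventually.of_forall fun k => ?_)
    simp only [hSs]
    push_cast
    ring
  have e5 : ∫ k : ℕ, S k * ((k : ℝ) - q / (1 - q)) ∂(geoM q) =
      ∫ k : ℕ, (k : ℝ) * S k ∂(geoM q) - q / (1 - q) * ∫ k, S k ∂(geoM q) := by
    rw [← integral_const_mul, ← integral_sub ikS (iS.const_mul _)]
    refine integral_congr_ae (Filter.Eventually.of_forall fun k => ?_)
    ring
  have e6 : ∫ k, ψ k ∂(geoM q) ≤ ∫ k : ℕ, ((k : ℝ) + 1) * ψ k ∂(geoM q) := by
    refine integral_mono iψ ikψ fun k => ?_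
    have := hψ0 k
    have := mul_nonneg (Nat.cast_nonneg (α := ℝ) k) this
    show ψ k ≤ ((k : ℝ) + 1) * ψ k
    linarith
  have e7 : 0 ≤ ∫ k, ψ k ∂(geoM q) := integral_nonneg hψ0
  have e8 : ∫ k, S (k + s) ∂(geoM q) ≤ ∫ k, S k ∂(geoM q) + ∫ k, ψ k ∂(geoM q) := by
    interval_cases s
    · simp only [add_zero]
      linarith
    · exact e3.le
  have hS00 : S 0 = 0 := by simp [hS]
  rw [hS00, mul_zero, zero_add, e3] at e1
  rw [Nat.cast_zero, zero_mul, mul_zero, zero_add, e4] at e2
  have h1q : 0 < 1 - q := by linarith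
  change ∫ k, S (k + s) ∂(geoM q) ≤ 1 / q * ∫ k, S k * ((k : ℝ) - q / (1 - q)) ∂(geoM q)
  rw [e5]
  refine e8.trans ?_
  generalize ∫ k, S k ∂(geoM q) = a at *
  generalize ∫ k : ℕ, (k : ℝ) * S k ∂(geoM q) = b at *
  generalize ∫ k, ψ k ∂(geoM q) = c at *
  generalize ∫ k : ℕ, ((k : ℝ) + 1) * ψ k ∂(geoM q) = d at *
  have ha : a = q * c / (1 - q) := by
    rw [eq_div_iff h1q.ne']; linarith
  have hbb : b - q / (1 - q) * a = q * d / (1 - q) := by
    have : b = q * (a + d) / (1 - q) := by rw [eq_div_iff h1q.ne']; linarith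
    rw [this]
    field_simp
    ring
  rw [hbb]
  have hR : 1 / q * (q * d / (1 - q)) = d / (1 - q) := by
    field_simp
  rw [hR]
  rw [ha, ← sub_nonneg]
  have : d / (1 - q) - (q * c / (1 - q) + c) = (d - c) / (1 - q) := by
    field_simp
    ring
  rw [this]
  exact div_nonneg (by linarith) h1q.le

end Pool.Agent.W230.LP
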